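import Pool.Agent.W945.Rg.Num
import Pool.Agent.W397.Rg.Merge
import Pool.Agent.W240.Rg.PROG

/-!
# Pseudorandom bits for oblivious programs which read their random bits many times

An ordered read-once branching program reads its random bits once, in a known order. We consider
oblivious branching programs of width `w` which read `n` random bits at `L` positions in a known
order `ρ 0, …, ρ (L - 1)` (`run`); ordered read-once programs are the case `L = n`, `ρ p = p`.
Gurjar and Volk (Pseudorandom bits for oblivious branching programs, CCC 2020) have explicit
generators for programs of polynomial width with seeds of `Õ(n ^ (1 - 1 / 2 ^ (k - 1)))` bits if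
every bit is read at most `k` times, and of `O(n / log log n)` bits if the length is `O(n)`.

We give an explicit generator `G` with seeds of
`20 n ^ (1 - 1 / (2 k + 4)) (1 + log₂ n + log₂ e + k log₂ n log₂ w)` bits and error `1 / e`, for all
`k`, plus one bit for every bit which is read more than `k` times. This is shorter for all `k ≥ 5`,
and sublinear for all `k ≤ c log n / log log n` and polynomial `w`, instead of `k = o(log log n)`. It
follows that seeds of `(12 L + n) log log n / log n` bits suffice for all programs of polynomial width
and length `L`; they are shorter than any `ε n` for `L = o(n log n / log log n)`.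

*The construction.* The reads of a set `U` of `m` variables are divided into `4 k ^ 2` blocks of
consecutive reads. There is a colouring of the blocks with two colours and two classes with
`m / (2 · 4 ^ k)` variables each, such that all reads of the variables in the class `c` are in blocks
of the colour `c` (`Rl.part`). For fixed values of the other variables, the output of the program is
a sum of `w ^ (4 k ^ 2)` products of partial programs for the two classes. The classes get the seeds
`s` and `s + y (1, x, x ^ 2, …)`, where `s` is a seed of the generator for one class and `x`, `y` are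
two more residues modulo a prime number `q`. These two seeds behave as independent ones for all
products of functions, up to `√(T / q)`, where `T` is the number of coordinates: the averaging
operators for the lines in the directions `(1, x, x ^ 2, …)` commute, and a character is orthogonal to
at most `T` of these directions. The other variables get an independent seed, recursively.
-/

namespace Pool.Agent.Results.MP_10e1ea_lc.ReadManyTimes

open Pool.Agent.W945.Rg Pool.Agent.W945.Rl

/-- **Explicit pseudorandom bits for oblivious programs of width `w` and length `L` which read the
bits in a known order `ρ`.**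

(1) The generator `G` with seeds `x < 2 ^ seedLength` fools all programs, with error `1 / e`.

(2) The seed length is at most
`h + 20 n ^ (1 - 1 / (2 k + 4)) (1 + log₂ n + log₂ e + k log₂ n log₂ w)`, where `h ≤ L / (k + 1)` is
the number of variables which are read more than `k` times (`heavy`).

(3) For `w, e ≤ n ^ c`, `n ≥ NN c` and `k = kk n = ⌊log n / (12 log log n)⌋ ≥ 1` the seed length is at
most `(12 L + n) log log n / log n`. -/
theorem result :
    (∀ (k w e n L : ℕ) (ρ : ℕ → Fin n), 1 ≤ k → 1 ≤ w → 1 ≤ e →
      (∀ (T : ℕ → Bool → Fin w → Fin w) (q₀ : Fin w) (acc : Fin w → Bool),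
        |(((Finset.range (2 ^ seedLength k w e L ρ)).filter fun x =>
            acc (run ρ T q₀ (G k w e L ρ x) L) = true).card : ℝ) / 2 ^ seedLength k w e L ρ -
          ((Finset.univ.filter fun y : Fin n → Bool =>
            acc (run ρ T q₀ y L) = true).card : ℝ) / 2 ^ n| ≤ 1 / e) ∧
      (seedLength k w e L ρ : ℝ) ≤ (heavy k L ρ).card +
        20 * (n : ℝ) ^ (1 - 1 / (2 * (k : ℝ) + 4)) *
          (1 + Real.logb 2 n + Real.logb 2 e + k * Real.logb 2 n * Real.logb 2 w) ∧
      (k + 1) * (heavy k L ρ).card ≤ L) ∧
    (∀ (c w e n L : ℕ) (ρ : ℕ → Fin n), 1 ≤ c → NN c ≤ n → 1 ≤ w → w ≤ n ^ c → 1 ≤ e → e ≤ n ^ c →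
      1 ≤ kk n ∧ (seedLength (kk n) w e L ρ : ℝ) ≤
        (12 * L + n) * Real.log (Real.log n) / Real.log n) := by
  refine ⟨?_, ?_⟩
  · intro k w e n L ρ hk hw he
    exact ⟨fun T q₀ acc => fooling Pool.Agent.W240.Rg.PROG.main Pool.Agent.W397.Rg.main hk hw he
      T q₀ acc, seed_le hk hw he, heavy_count⟩
  · intro c w e n L ρ hc hn hw hwn he hen
    exact seed_long hc hn hw hwn he hen

end Pool.Agent.Results.MP_10e1ea_lc.ReadManyTimes
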