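import Pool.Agent.W996.Reg.Final

/-!
# A generator with logarithmic seed for regular branching programs of small width

For every `c` there is an explicit generator with seed length `O(log n)` which fools, with error
`(log n) ^ (-c)`, all ordered read-once branching programs of length `n` and width at most
`(log n) ^ (1/16)` in which all but `(log n) ^ c` layers are regular.

The seed of a block on level `k + 1` is `(x, c₀, c₁, z)`, and its `B = (log n) ^ (1/16)` sub-blocks
on level `k` have the seeds `x + (b a ^ j)_j`, where `(a, b)` are the values at the point `l D + λ`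
of the two polynomials (of constant degree) with coefficients `c₀`, `c₁`, over a field whose size is
a power of `log n`; the small labels `λ < D = B ^ 8` are the values (mod `D`) at `z` of `B`
polynomials of degree `2 B ^ 13`, which are random, part of the seed (with `o(log n)` bits), and the
same on all levels.
-/

set_option autoImplicit false

namespace Pool.Agent.Results.MP_10e1ea_lc.RegularPrograms

open Finset Pool.Agent.W996.Reg

open Classical in
/-- For every `c` there are `C`, `E`, `n₀`, a register program `P` and maps
`G n : {0,1}^(C ⌊log₂ n⌋) → {0,1}^n` such that for `n ≥ n₀`: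

* started with `n`, (the number with the binary digits) `s`, and `i` in the registers `0`, `1`, `2`
  and `0` in all others, `P` stops with the `i`-th bit of `G n s` in register `3`, and all values
  written into registers are at most `n ^ E` (and so are the initial values, since `C < E`);
* `G n` fools with error `1 / ⌊log₂ n⌋ ^ c` all ordered read-once branching programs of length `n`
  and width `w`, `w ^ 16 ≤ ⌊log₂ n⌋`, in which at most `⌊log₂ n⌋ ^ c` layers are not regular, or
  whose value function has total variation at most `⌊log₂ n⌋ ^ c`. -/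
theorem result (c : ℕ) :
    ∃ (C E n₀ : ℕ) (P : Prg) (G : (n : ℕ) → (Fin (C * Nat.log 2 n) → Bool) → Fin n → Bool),
      C < E ∧
      (∀ n ≥ n₀, ∀ (s : Fin (C * Nat.log 2 n) → Bool) (i : Fin n),
        Run (n ^ E) P (inp n (num s) i)
          (Function.update (inp n (num s) i) 3 (if G n s i then 1 else 0))) ∧
      ∀ n ≥ n₀, ∀ w : ℕ, w ^ 16 ≤ Nat.log 2 n → ∀ A : Prog w n,
        ((univ.filter (fun i => ¬ A.RegularAt i)).card ≤ Nat.log 2 n ^ c ∨
          A.variation ≤ (Nat.log 2 n : ℝ) ^ c) →
        |av (fun x : Fin n → Bool => if A.out x then (1 : ℝ) else 0) -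
          av (fun s : Fin (C * Nat.log 2 n) → Bool => if A.out (G n s) then (1 : ℝ) else 0)| ≤
            1 / (Nat.log 2 n : ℝ) ^ c := by
  obtain ⟨E, n₁, P, hP⟩ := explicit c
  obtain ⟨n₂, hG⟩ := fools c
  refine ⟨pC c, E + pC c + 1, max (max n₁ n₂) 1, P, G c, by omega, ?_, ?_⟩
  · intro n hn s i
    refine Run.mono ?_ (hP n (le_trans ((le_max_left _ _).trans (le_max_left _ _)) hn) s i)
    exact Nat.pow_le_pow_right (le_trans (le_max_right _ _) hn) (by omega)
  · intro n hn w hw A hA
    apply hG n (le_trans ((le_max_right _ _).trans (le_max_left _ _)) hn) w hw A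
    have hw1 : (1 : ℝ) ≤ (w : ℝ) ^ 2 := by
      have : 0 < w := lt_of_le_of_lt (Nat.zero_le _) A.start.2
      exact one_le_pow₀ (by exact_mod_cast this)
    rcases hA with hA | hA
    · refine A.variation_le.trans ?_
      have : (((univ.filter (fun i => ¬ A.RegularAt i)).card : ℕ) : ℝ) ≤
          (Nat.log 2 n : ℝ) ^ c := by exact_mod_cast hA
      gcongr
    · have h0 : (0 : ℝ) ≤ (Nat.log 2 n : ℝ) ^ c := by positivity
      nlinarith

end Pool.Agent.Results.MP_10e1ea_lc.RegularPrograms
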